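import Pool.Agent.V8H88.PP.Fld

/-!
# The `p`-parity conjecture over number fields whose complex conjugations commute

Let `k` be a totally real number field, let `E` be an elliptic curve over `k`, let `p` be a prime and let `F / k` be
a finite Galois extension. Suppose that the `p`-parity conjecture holds for `E` over the totally real fields `L`
between `k` and `F` and over the quadratic extensions `L'` of these fields in `F` (this is the conjecture for `E` and
its quadratic twists over totally real fields, and it is known in most cases by the work of Nekovář). Then it
holds for `E` over every field `K` between `k` and `F` such that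

(1) the complex conjugations commute on `K`: `σ (τ x) = τ (σ x)` for `x` in `K` and for the complex conjugations
`σ`, `τ` in `Gal(F/k)` which come from two embeddings of `F` in `ℂ`;

in particular, over the following fields `K`:

(2) the subfields of the multiquadratic extensions of totally real fields: `K ⊆ T(S)`, where `T` is totally real and
the squares of the elements of `S` are in `T`;

(3) all totally complex extensions `K` of `k` of degree 4.

The proof: let `N` be the subgroup generated by the complex conjugations and `H = Gal(F/K)`. It acts on `NH / H` through
an elementary abelian 2-group, and the permutation character of `NH` on `NH / H` is a difference of two sums of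
characters induced from the trivial characters of subgroups `S`, which contain `N`, and `R`, which have index 2 in some
`S`. Selmer ranks and root numbers are compatible with such relations.
-/

set_option autoImplicit false

namespace Pool.Agent.Results.MP_ddf76b_nt.CommutingComplexConjugations

open Pool.Agent.V8H88.PP NumberField

theorem result :
    ∀ (k F : Type) [Field k] [NumberField k] [Field F] [NumberField F] [Algebra k F] [IsGalois k F]
      [IsTotallyReal k] (D : ParityData k F),
      (∀ L : IntermediateField k F, IsTotallyReal L → D.Holds L) →
      (∀ L L' : IntermediateField k F, IsTotallyReal L → L ≤ L' →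
        Module.finrank k L' = 2 * Module.finrank k L → D.Holds L') →
      (∀ K : IntermediateField k F,
        (∀ σ τ : F ≃ₐ[k] F, (∃ φ : F →+* ℂ, ComplexEmbedding.IsConj φ σ) →
          (∃ ψ : F →+* ℂ, ComplexEmbedding.IsConj ψ τ) → ∀ x ∈ K, σ (τ x) = τ (σ x)) → D.Holds K) ∧
      (∀ (K T : IntermediateField k F) (S : Set F), IsTotallyReal T → (∀ s ∈ S, s * s ∈ T) →
        K ≤ T ⊔ IntermediateField.adjoin k S → D.Holds K) ∧
      (∀ K : IntermediateField k F, IsTotallyComplex K → Module.finrank k K = 4 → D.Holds K) := by
  intro k F _ _ _ _ _ _ _ D h1 h2
  refine ⟨fun K hK => D.holds_of_comm h1 h2 K fun σ hσ τ hτ => hK σ τ hσ hτ, ?_, ?_⟩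
  · intro K T S hT hS hK
    exact D.holds_of_comm h1 h2 K (comm_of_multiquadratic K T hT S hS hK)
  · intro K hK h4
    exact D.holds_of_comm h1 h2 K (comm_of_quartic K hK h4)

end Pool.Agent.Results.MP_ddf76b_nt.CommutingComplexConjugations
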