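import Pool.Agent.V8H88.PP.Rad

/-!
# The `p`-parity conjecture over fields with a real place which are generated by radicals

Let `k` be a totally real number field, let `E` be an elliptic curve over `k`, let `p` be a prime and let `F / k` be
a finite Galois extension. Suppose that the `p`-parity conjecture holds

(i) for the twists of `E` over the totally real fields `L` between `k` and `F` by the characters `χ` of `Gal(F/L)` with
`χ² = 1`,

(ii) for the twists of `E` over the totally complex quadratic extensions `M` of the totally real fields `L` by the
ring class characters `χ` of `Gal(F/M)`: `χ(g²) = 1` for all `g` in `Gal(F/L)` outside `Gal(F/M)`.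

Then the `p`-parity conjecture holds for `E` over every field `K` between `k` and `F` which has a real place and is
such that

(1) `ρ (σ (τ x)) = τ (σ (ρ x))` for `x` in `K` and for all `ρ`, `σ`, `τ` in `Gal(F/k)` which are complex conjugations for
embeddings of `F` in `ℂ`; in particular

(2) over every field `K` with a real place which is contained in a field generated over a totally real field `T` by
radicals (elements `s` with `s ^ n` in `T` for some `n > 0`), for example all fields `k(a₁^{1/n₁}, …, a_r^{1/n_r})`
with a real place.

The proof: let `A` be the subgroup generated by the products of two complex conjugations and `H = Gal(F/K)`. Modulo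
the normal core of `H` the group `A` is abelian and the complex conjugations invert it. The permutation character of
`Gal(F/k) / H` is the sum of the characters induced from the extensions of the characters `ψ` of `A` (trivial on
`A ∩ H`) to the subgroups `A · Stab_H(ψ)`; these subgroups with the extensions of `ψ` are as in (i), if `ψ² = 1`, and
as in (ii), if not. Selmer ranks and root numbers are compatible with such relations.
-/

set_option autoImplicit false

namespace Pool.Agent.Results.MP_ddf76b_nt.RealRadicalFields

open Pool.Agent.V8H88.PP NumberField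

theorem result :
    ∀ (k F : Type) [Field k] [NumberField k] [Field F] [NumberField F] [Algebra k F] [IsGalois k F]
      [IsTotallyReal k] (D : TwistData k F),
      (∀ (L : IntermediateField k F) (χ : L.fixingSubgroup →* ℂˣ), IsTotallyReal L →
        (∀ g, χ g * χ g = 1) → D.Holds L χ) →
      (∀ (L M : IntermediateField k F) (χ : M.fixingSubgroup →* ℂˣ), IsTotallyReal L →
        IsTotallyComplex M → L ≤ M → Module.finrank k M = 2 * Module.finrank k L →
        (∀ g ∈ L.fixingSubgroup, g ∉ M.fixingSubgroup → ∀ h : g * g ∈ M.fixingSubgroup, χ ⟨g * g, h⟩ = 1) →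
        D.Holds M χ) →
      (∀ K : IntermediateField k F, (∃ w : InfinitePlace K, w.IsReal) →
        (∀ ρ σ τ : F ≃ₐ[k] F, (∃ φ : F →+* ℂ, ComplexEmbedding.IsConj φ ρ) →
          (∃ φ : F →+* ℂ, ComplexEmbedding.IsConj φ σ) → (∃ φ : F →+* ℂ, ComplexEmbedding.IsConj φ τ) →
          ∀ x ∈ K, ρ (σ (τ x)) = τ (σ (ρ x))) → D.Holds K 1) ∧
      (∀ (K T : IntermediateField k F) (S : Set F), (∃ w : InfinitePlace K, w.IsReal) → IsTotallyReal T →
        (∀ s ∈ S, ∃ n : ℕ, n ≠ 0 ∧ s ^ n ∈ T) → K ≤ T ⊔ IntermediateField.adjoin k S → D.Holds K 1) := by
  intro k F _ _ _ _ _ _ _ D h1 h2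
  refine ⟨fun K hw hK => D.holds_of_dihedral h1 h2 K hw fun ρ hρ σ hσ τ hτ => hK ρ σ τ hρ hσ hτ, ?_⟩
  intro K T S hw hT hS hK
  exact D.holds_of_dihedral h1 h2 K hw (comm_of_radical K T hT S hS hK)

end Pool.Agent.Results.MP_ddf76b_nt.RealRadicalFields
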