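import Pool.Agent.V8H88.PP.Data

/-!
# Reduction of the `p`-parity conjecture to normalizers of Cartan subgroups

Let `E` be an elliptic curve over a number field `k`, let `p` be a prime and let `F / k` be a finite Galois
extension.

(1) If the `p`-parity conjecture holds for `E` over all fields `L` between `k` and `F` such that `Gal(F/L)` is
2-hyperelementary (an extension of a 2-group by a cyclic group of odd order), then it holds for `E` over all
fields between `k` and `F`.

(2) Suppose that `F` contains the coordinates of the points of order `ℓ_i` of `E`, for some odd primes `ℓ_i`. If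
the `p`-parity conjecture holds for `E` over all fields `L` such that for each `i` the image of the absolute Galois
group of `L` in `GL_2(ℤ/ℓ_i)` fixes a line (`E` has an `ℓ_i`-isogeny over `L`) or lies in the normalizer of a Cartan
subgroup, then it holds for `E` over all fields between `k` and `F`.

If `p` is odd and one of the `ℓ_i` is equal to `p`, the case of the `p`-isogenies is known (T. and V. Dokchitser,
Česnavičius). So the `p`-parity conjecture is reduced to the curves with mod `p` image in the normalizer of a
Cartan subgroup.

The proof: by a theorem of Dress an odd multiple of the trivial character of a finite group is an integral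
combination of permutation characters of 2-hyperelementary subgroups; Selmer ranks and root numbers are
compatible with relations between permutation characters; and 2-hyperelementary groups of matrices over a field with an
odd prime number of elements fix a line or normalize a Cartan subgroup.
-/

set_option autoImplicit false

namespace Pool.Agent.Results.MP_ddf76b_nt.ReductionToCartanNormalizers

open Pool.Agent.V8H88.PP

theorem result :
    (∀ (k F : Type) [Field k] [NumberField k] [Field F] [NumberField F] [Algebra k F] [IsGalois k F]
      (D : ParityData k F),
      (∀ L : IntermediateField k F, Hyper L.fixingSubgroup → D.Holds L) →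
      ∀ K : IntermediateField k F, D.Holds K) ∧
    (∀ (k F : Type) [Field k] [NumberField k] [Field F] [NumberField F] [Algebra k F] [IsGalois k F]
      (D : ParityData k F) (ι : Type) (ℓ : ι → ℕ) [∀ i, Fact (ℓ i).Prime],
      (∀ i, ℓ i ≠ 2) → ∀ ρ : (i : ι) → (F ≃ₐ[k] F) →* GL (Fin 2) (ZMod (ℓ i)),
      (∀ L : IntermediateField k F,
        (∀ i, FixesLine (ρ i) L.fixingSubgroup ∨ NormalizesCartan (ρ i) L.fixingSubgroup) → D.Holds L) →
      ∀ K : IntermediateField k F, D.Holds K) := by
  refine ⟨?_, ?_⟩
  · intro k F _ _ _ _ _ _ D h K
    exact D.holds_of_hyper h K
  · intro k F _ _ _ _ _ _ D ι ℓ _ hℓ ρ h K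
    refine D.holds_of_hyper (fun L hL => h L fun i => hyper_plane ?_ (ρ i) hL) K
    intro h2
    have h3 : ((2 : ℕ) : ZMod (ℓ i)) = 0 := by exact_mod_cast h2
    rw [ZMod.natCast_eq_zero_iff] at h3
    exact hℓ i ((Nat.prime_dvd_prime_iff_eq (Fact.out : (ℓ i).Prime) Nat.prime_two).mp h3)

end Pool.Agent.Results.MP_ddf76b_nt.ReductionToCartanNormalizers
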