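import Pool.Agent.V8H76.Par.Sharp

/-!
# The 2-parity conjecture and fixed points of real elements of odd order

Let `E` be an elliptic curve over a number field `k` and let `N` be a finite Galois extension of `k`
with group `G` which contains the coordinates of the points of order 2 of `E`; let `t` be the action
of `G` on these points. An element of `G` is critical if it has odd order, is conjugate to its inverse
and acts non-trivially on the points of order 2 of `E`.

For fields `K_i` between `k` and `N` and integers `m_i` the product of the powers
`((-1) ^ rk_2(E/K_i) w(E/K_i)) ^ m_i` is 1 if the number `∑ m_i #(fixed points of g on G / Gal(N/K_i))`
is even for all critical `g`. In particular the 2-parity conjecture holds for `E / K` if the number of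
the fixed points on `G / Gal(N/K)` of each critical element is even, and the 2-parity conjectures for
`E / K` and for `E / L` are equivalent if the two numbers have the same parity for each critical element.

Conversely, if one of these numbers is odd, then the relation does not follow from the known properties
of the Selmer ranks and the root numbers in `TwoParityData`: there is a family of integers and signs
with all these properties for which the product is -1.

Consequences proved in `Pool.Agent.V8H76.Par.Data` (not part of the statement):

* the 2-parity conjecture holds for `E / K` if there is a field `M` between `k` and `N` such that `M / k`
  and `MK / k` are Galois and `Gal(MK/M)` is elementary abelian of order `2 ^ n`, `n` odd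
  (`TwoParityData.holds_of_oddMultiquadratic`);
* if `G` acts on the space of dimension `n` over the field with two elements, `n` odd, transitively on
  the non-zero vectors, and `Gal(N/K)` is the stabilizer of one of them, then the 2-parity conjectures
  for `E / K` and for `E / k` are equivalent (`TwoParityData.holds_iff_of_transitive`);
* the reduction of the 2-parity conjecture to the fields `L` such that `Gal(N/L)` is an extension of a
  2-group by the group generated by a critical element (`TwoParityData.holds_of_reduction`).
-/

set_option autoImplicit false

namespace Pool.Agent.Results.MP_ddf76b_nt.TwoParityFixedPoints

open Pool.Agent.V8H76.Par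

theorem result (k N : Type) [Field k] [NumberField k] [Field N] [NumberField N] [Algebra k N]
    [IsGalois k N] (t : (N ≃ₐ[k] N) →* Matrix.GeneralLinearGroup (Fin 2) (ZMod 2)) (ι : Type)
    (s : Finset ι) (K : ι → IntermediateField k N) (m : ι → ℤ) :
    (∀ D : TwoParityData k N, D.torsion = t → ∏ i ∈ s, D.discrepancy (K i) ^ m i = 1) ↔
      ∀ g : N ≃ₐ[k] N, Odd (orderOf g) → IsReal g → t g ≠ 1 →
        Even (∑ i ∈ s, m i * fixNumber (K i) g) :=
  relation_iff t s K m

end Pool.Agent.Results.MP_ddf76b_nt.TwoParityFixedPoints
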